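import Mathlib

namespace Pool.Agent.H.MP_23c930_nt

def Cov (n x : ℕ) : Prop :=
  (∃ p q : ℕ, p.Prime ∧ q.Prime ∧ p ≠ q ∧ p < n ∧ q < n ∧ p * q ∣ x) ∨
    (∃ p : ℕ, p.Prime ∧ 2 * p < n ∧ p ^ 2 ∣ x)

def frc (x : ℕ) (f : ℕ → ℕ) : ℕ :=
  match x with
  | 0 => f 0
  | k + 1 => f (k + 1)

lemma frc_eq (x : ℕ) (f : ℕ → ℕ) : frc x f = f x := by
  cases x <;> rfl

def pat (N : ℕ) : ℕ → ℕ → ℕ → ℕ
  | 0, _, x => x
  | k + 1, d, x => if N ≤ d then x else frc (x ||| (x <<< d)) (fun y => pat N k (2 * d) y)

lemma pat_dvd (N d0 : ℕ) : ∀ k d x : ℕ, d0 ∣ d → (∀ i, x.testBit i = true → d0 ∣ i) →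
    ∀ i, (pat N k d x).testBit i = true → d0 ∣ i := by
  intro k
  induction k with
  | zero => intro d x _ hx i hi; exact hx i hi
  | succ k ih =>
    intro d x hd hx i hi
    unfold pat at hi
    split_ifs at hi with h
    · exact hx i hi
    · rw [frc_eq] at hi
      refine ih (2 * d) _ (Dvd.dvd.mul_left hd 2) ?_ i hi
      intro j hj
      rw [Nat.testBit_or, Nat.testBit_shiftLeft] at hj
      simp only [Bool.or_eq_true, Bool.and_eq_true, decide_eq_true_eq] at hj
      rcases hj with hj | ⟨h1, h2⟩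
      · exact hx j hj
      · have h3 := hx _ h2
        have : j = (j - d) + d := by omega
        rw [this]
        exact dvd_add h3 hd

def msk (N M d : ℕ) : ℕ :=
  frc ((d - M % d) % d) (fun r => if N ≤ r then 0 else (pat N 20 d 1) <<< r)

lemma msk_dvd (N M d : ℕ) (hd : 0 < d) (i : ℕ) (hi : (msk N M d).testBit i = true) :
    d ∣ M + i := by
  unfold msk at hi
  rw [frc_eq] at hi
  split_ifs at hi with h
  · simp at hi
  · rw [Nat.testBit_shiftLeft] at hi
    simp only [Bool.and_eq_true, decide_eq_true_eq] at hi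
    obtain ⟨h1, h2⟩ := hi
    have h3 := pat_dvd N d 20 d 1 dvd_rfl (by
      intro j hj
      have : j = 0 := by
        by_contra h0
        rw [Nat.testBit_one_eq_true_iff_self_eq_zero] at hj
        exact h0 hj
      rw [this]; exact dvd_zero _) _ h2
    have h4 : d ∣ M + (d - M % d) % d := by
      have h5 : M % d < d := Nat.mod_lt _ hd
      apply Nat.dvd_of_mod_eq_zero
      rw [Nat.add_mod, Nat.mod_mod]
      rw [Nat.add_mod_mod]
      have : M % d + (d - M % d) = d := by omega
      rw [this, Nat.mod_self]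
    have : M + i = (M + (d - M % d) % d) + (i - (d - M % d) % d) := by omega
    rw [this]
    exact dvd_add h4 h3

def isP (F p : ℕ) : Bool :=
  if p < 200 then (decide (2 ≤ p) && Nat.gcd p (Nat.factorial (p - 1)) == 1)
  else Nat.gcd p F == 1

lemma isP_prime (p : ℕ) (hp : p < 40000) (h : isP (Nat.factorial 199) p = true) : p.Prime := by
  unfold isP at h
  by_contra hn
  split_ifs at h with h1
  · simp only [Bool.and_eq_true, decide_eq_true_eq, beq_iff_eq] at h
    obtain ⟨h2, h3⟩ := h
    have h4 := Nat.minFac_prime (n := p) (by omega)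
    have h5 : p.minFac < p := (Nat.not_prime_iff_minFac_lt h2).1 hn
    have h6 : p.minFac ∣ Nat.factorial (p - 1) := Nat.dvd_factorial h4.pos (by omega)
    have h7 := Nat.dvd_gcd (Nat.minFac_dvd p) h6
    rw [h3] at h7
    exact h4.one_lt.ne' (Nat.dvd_one.1 h7)
  · simp only [beq_iff_eq] at h
    have h4 := Nat.minFac_prime (n := p) (by omega)
    have h5 := Nat.minFac_sq_le_self (n := p) (by omega) hn
    have h8 : p.minFac ≤ 199 := by
      by_contra h9
      have : 200 ≤ p.minFac := by omega
      nlinarith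
    have h6 : p.minFac ∣ Nat.factorial 199 := Nat.dvd_factorial h4.pos h8
    have h7 := Nat.dvd_gcd (Nat.minFac_dvd p) h6
    rw [h] at h7
    exact h4.one_lt.ne' (Nat.dvd_one.1 h7)

def go (N M F : ℕ) : ℕ → ℕ → ℕ → ℕ
  | 0, _, tw => tw
  | p + 1, on, tw =>
    if isP F p = true then
      frc (msk N M p) (fun a =>
        frc (tw ||| (on &&& a) ||| (if 2 * p < N then msk N M (p * p) else 0)) (fun tw' =>
          frc (on ||| a) (fun on' => go N M F p on' tw')))
    else go N M F p on tw

lemma go_cov (N M : ℕ) (hN : N ≤ 40000) : ∀ k on tw : ℕ, k ≤ N →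
    (∀ i, on.testBit i = true → ∃ q, q.Prime ∧ k ≤ q ∧ q < N ∧ q ∣ M + i) →
    (∀ i, tw.testBit i = true → Cov N (M + i)) →
    ∀ i, (go N M (Nat.factorial 199) k on tw).testBit i = true → Cov N (M + i) := by
  intro k
  induction k with
  | zero => intro on tw _ _ h i hi; exact h i hi
  | succ p ih =>
    intro on tw hk hon htw i hi
    unfold go at hi
    by_cases hp : isP (Nat.factorial 199) p = true
    · rw [if_pos hp, frc_eq, frc_eq, frc_eq] at hi
      have hpp := isP_prime p (by omega) hp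
      refine ih _ _ (by omega) ?_ ?_ i hi
      · intro j hj
        rw [Nat.testBit_or] at hj
        simp only [Bool.or_eq_true] at hj
        rcases hj with hj | hj
        · obtain ⟨q, h1, h2, h3, h4⟩ := hon j hj
          exact ⟨q, h1, by omega, h3, h4⟩
        · exact ⟨p, hpp, le_rfl, by omega, msk_dvd N M p hpp.pos j hj⟩
      · intro j hj
        rw [Nat.testBit_or, Nat.testBit_or, Nat.testBit_and] at hj
        simp only [Bool.or_eq_true, Bool.and_eq_true] at hj
        rcases hj with (hj | ⟨h5, h6⟩) | hj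
        · exact htw j hj
        · obtain ⟨q, h1, h2, h3, h4⟩ := hon j h5
          have h7 := msk_dvd N M p hpp.pos j h6
          refine Or.inl ⟨p, q, hpp, h1, by omega, by omega, h3, ?_⟩
          exact Nat.Coprime.mul_dvd_of_dvd_of_dvd
            ((Nat.coprime_primes hpp h1).2 (by omega)) h7 h4
        · split_ifs at hj with h2
          · refine Or.inr ⟨p, hpp, h2, ?_⟩
            rw [sq]
            exact msk_dvd N M (p * p) (Nat.mul_pos hpp.pos hpp.pos) j hj
          · simp at hj
    · rw [if_neg hp] at hi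
      refine ih on tw (by omega) ?_ htw i hi
      intro j hj
      obtain ⟨q, h1, h2, h3, h4⟩ := hon j hj
      exact ⟨q, h1, by omega, h3, h4⟩

def chk (N M F : ℕ) : Bool := (go N M F N 0 0 &&& (2 ^ N - 1)) == 2 ^ N - 1

lemma chk_cov (N M : ℕ) (hN : N ≤ 40000) (h : chk N M (Nat.factorial 199) = true)
    (i : ℕ) (hi : i < N) : Cov N (M + i) := by
  unfold chk at h
  simp only [beq_iff_eq] at h
  refine go_cov N M hN N 0 0 le_rfl (by simp) (by simp) i ?_
  have h1 : ((go N M (Nat.factorial 199) N 0 0) &&& (2 ^ N - 1)).testBit i = true := by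
    rw [h, Nat.testBit_two_pow_sub_one]; simpa using hi
  rw [Nat.testBit_and] at h1
  simp only [Bool.and_eq_true] at h1
  exact h1.1

end Pool.Agent.H.MP_23c930_nt
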